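import Mathlib
import Pool.Agent.H521R3.TZ.Lower

/-!
# `g_3(k) = 3^(k - Θ(log k))`

Least maximum `g_3(k)` of a `k`-element set of positive integers whose nonempty subset sums contain
no three-term arithmetic progression: `3^k / (4 √k) ≤ g_3(k) ≤ 12 * 3^k / k^(1/3)`.
The upper bound is new and refutes the conjecture `g_3(k) > 3^(k-c)`.  The construction is a
ternary version of the zigzag averaging chain of helper219 (distinct subset sums,
`Pool.Agent.H219R2.DS`).  Author: helper521.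
-/

set_option autoImplicit false

namespace Pool.Agent.Results.MP_727445_co.ZigzagTernary

open Finset
open Pool.Agent.H521R3.TZ

/-- The set of values of the nonempty subset sums of `B`. -/
def subsetSums (B : Finset ℕ) : Set ℤ :=
  {s : ℤ | ∃ T : Finset ℕ, T ⊆ B ∧ T.Nonempty ∧ s = ∑ x ∈ T, (x : ℤ)}

/-- `S` contains an `r`-term arithmetic progression `x, x + d, ..., x + (r-1) d` with `d ≠ 0`. -/
def HasAP (r : ℕ) (S : Set ℤ) : Prop :=
  ∃ x d : ℤ, d ≠ 0 ∧ ∀ i : ℕ, i < r → x + (i : ℤ) * d ∈ S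

/-- `g_r(k)`: the least possible largest element `m` of a `k`-element set `B` of positive
integers (that is, of a sequence `b_1 < ... < b_k = m`) whose nonempty subset sums contain no
`r`-term arithmetic progression. -/
noncomputable def g (r k : ℕ) : ℕ :=
  sInf {m : ℕ | ∃ B : Finset ℕ, B.card = k ∧ (∀ b ∈ B, 0 < b) ∧ IsGreatest (B : Set ℕ) m ∧
    ¬ HasAP r (subsetSums B)}

lemma not_hasAP_of_noRel {B : Finset ℕ} (hB : NoRel B) : ¬ HasAP 3 (subsetSums B) := by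
  rintro ⟨x, d, hd, h⟩
  obtain ⟨T₀, h₀, -, e₀⟩ := h 0 (by norm_num)
  obtain ⟨T₁, h₁, -, e₁⟩ := h 1 (by norm_num)
  obtain ⟨T₂, h₂, -, e₂⟩ := h 2 (by norm_num)
  have key : ∀ T : Finset ℕ, T ⊆ B →
      ∑ y ∈ T, (y : ℤ) = ∑ y ∈ B, (if y ∈ T then (1 : ℤ) else 0) * (y : ℤ) := by
    intro T hT
    simp only [ite_mul, one_mul, zero_mul]
    rw [← Finset.sum_filter]
    congr 1
    ext y
    simp only [Finset.mem_filter]
    exact ⟨fun hy => ⟨hT hy, hy⟩, fun hy => hy.2⟩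
  rw [key T₀ h₀] at e₀
  rw [key T₁ h₁] at e₁
  rw [key T₂ h₂] at e₂
  have hz := hB (fun y => (if y ∈ T₀ then (1 : ℤ) else 0) + (if y ∈ T₂ then (1 : ℤ) else 0)
      - 2 * (if y ∈ T₁ then (1 : ℤ) else 0)) (by
        intro y _
        try dsimp only
        split_ifs <;> norm_num) (by
        simp only [sub_mul, add_mul, Finset.sum_sub_distrib, Finset.sum_add_distrib, mul_assoc]
        rw [← Finset.mul_sum, ← e₀, ← e₁, ← e₂]
        push_cast
        ring)
  have h02 : ∑ y ∈ B, (if y ∈ T₀ then (1 : ℤ) else 0) * (y : ℤ)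
      = ∑ y ∈ B, (if y ∈ T₂ then (1 : ℤ) else 0) * (y : ℤ) := by
    apply Finset.sum_congr rfl
    intro y hy
    have := hz y hy
    try dsimp only at this
    by_cases a0 : y ∈ T₀ <;> by_cases a1 : y ∈ T₁ <;> by_cases a2 : y ∈ T₂ <;>
      simp [a0, a1, a2] at this ⊢
  rw [← e₀, ← e₂] at h02
  push_cast at h02
  apply hd
  linarith

/-- Three terms suffice. -/
lemma hasAP_of (S : Set ℤ) (a b c : ℤ) (ha : a ∈ S) (hb : b ∈ S) (hc : c ∈ S)
    (hne : a ≠ b) (hsum : a + c = 2 * b) : HasAP 3 S := by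
  refine ⟨a, b - a, fun h => hne (by omega), ?_⟩
  intro i hi
  interval_cases i
  · simpa using ha
  · have : a + ((1 : ℕ) : ℤ) * (b - a) = b := by push_cast; ring
    rw [this]; exact hb
  · have : a + ((2 : ℕ) : ℤ) * (b - a) = c := by push_cast; linarith
    rw [this]; exact hc

/-- Two disjoint nonempty sets with equal sums give a progression. -/
lemma hasAP_of_eq (B S T : Finset ℕ) (hpos : ∀ b ∈ B, 0 < b) (hS : S ⊆ B) (hT : T ⊆ B)
    (hSn : S.Nonempty) (hTn : T.Nonempty) (hd : Disjoint S T)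
    (he : ∑ x ∈ S, (x : ℤ) = ∑ x ∈ T, (x : ℤ)) : HasAP 3 (subsetSums B) := by
  classical
  -- the case `2 ≤ |T|`
  have main : ∀ S T : Finset ℕ, S ⊆ B → T ⊆ B → S.Nonempty → Disjoint S T →
      ∑ x ∈ S, (x : ℤ) = ∑ x ∈ T, (x : ℤ) → 2 ≤ T.card → HasAP 3 (subsetSums B) := by
    intro S T hS hT hSn hd he h2
    have hTn : T.Nonempty := by rw [← Finset.card_pos]; omega
    obtain ⟨b, hb⟩ := hTn
    have hbS : b ∉ S := fun h => (Finset.disjoint_left.mp hd) h hb
    have hbp : (0 : ℤ) < b := by exact_mod_cast hpos b (hT hb)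
    refine hasAP_of _ (∑ x ∈ T.erase b, (x : ℤ)) (∑ x ∈ S, (x : ℤ)) (∑ x ∈ insert b S, (x : ℤ))
      ?_ ?_ ?_ ?_ ?_
    · refine ⟨T.erase b, (Finset.erase_subset _ _).trans hT, ?_, rfl⟩
      rw [← Finset.card_pos, Finset.card_erase_of_mem hb]
      omega
    · exact ⟨S, hS, hSn, rfl⟩
    · exact ⟨insert b S, Finset.insert_subset (hT hb) hS, Finset.insert_nonempty _ _, rfl⟩
    · have := Finset.add_sum_erase T (fun x => (x : ℤ)) hb
      intro h
      linarith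
    · have := Finset.add_sum_erase T (fun x => (x : ℤ)) hb
      rw [Finset.sum_insert hbS]
      linarith
  rcases Nat.lt_or_ge T.card 2 with h1 | h1
  · rcases Nat.lt_or_ge S.card 2 with h2 | h2
    · exfalso
      have h3 : S.card = 1 := by have := Finset.card_pos.mpr hSn; omega
      have h4 : T.card = 1 := by have := Finset.card_pos.mpr hTn; omega
      obtain ⟨s, rfl⟩ := Finset.card_eq_one.mp h3
      obtain ⟨t, rfl⟩ := Finset.card_eq_one.mp h4
      simp only [Finset.sum_singleton] at he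
      have h5 : s = t := by exact_mod_cast he
      rw [h5] at hd
      simp at hd
    · exact main T S hT hS hTn hd.symm he.symm h2
  · exact main S T hS hT hSn hd he h1

/-- No three-term progression implies no relation. -/
lemma noRel_of_not_hasAP {B : Finset ℕ} (hpos : ∀ b ∈ B, 0 < b)
    (hB : ¬ HasAP 3 (subsetSums B)) : NoRel B := by
  classical
  intro c hc hsum
  by_contra hcon
  push Not at hcon
  apply hB
  -- the four level sets
  set P1 := B.filter (fun x => c x = 1) with hP1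
  set P2 := B.filter (fun x => c x = 2) with hP2
  set N1 := B.filter (fun x => c x = -1) with hN1
  set N2 := B.filter (fun x => c x = -2) with hN2
  have hval : ∀ x ∈ B, c x * (x : ℤ) = (if c x = 1 then (x : ℤ) else 0) +
      2 * (if c x = 2 then (x : ℤ) else 0) - (if c x = -1 then (x : ℤ) else 0) -
      2 * (if c x = -2 then (x : ℤ) else 0) := by
    intro x hx
    have h1 := abs_le.mp (hc x hx)
    have h2 : c x = -2 ∨ c x = -1 ∨ c x = 0 ∨ c x = 1 ∨ c x = 2 := by omega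
    rcases h2 with h | h | h | h | h <;> rw [h] <;> norm_num <;> ring
  rw [Finset.sum_congr rfl hval, Finset.sum_sub_distrib, Finset.sum_sub_distrib,
    Finset.sum_add_distrib, ← Finset.mul_sum, ← Finset.mul_sum, ← Finset.sum_filter,
    ← Finset.sum_filter, ← Finset.sum_filter, ← Finset.sum_filter] at hsum
  rw [← hP1, ← hP2, ← hN1, ← hN2] at hsum
  have hposS : ∀ S ⊆ B, S.Nonempty → 0 < ∑ x ∈ S, (x : ℤ) := by
    intro S hS hSn
    exact Finset.sum_pos (fun x hx => by exact_mod_cast hpos x (hS hx)) hSn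
  have hnn : ∀ S ⊆ B, 0 ≤ ∑ x ∈ S, (x : ℤ) := by
    intro S _
    exact Finset.sum_nonneg (fun x _ => by positivity)
  have sP1 : P1 ⊆ B := Finset.filter_subset _ _
  have sP2 : P2 ⊆ B := Finset.filter_subset _ _
  have sN1 : N1 ⊆ B := Finset.filter_subset _ _
  have sN2 : N2 ⊆ B := Finset.filter_subset _ _
  have dis : ∀ a b : ℤ, a ≠ b → Disjoint (B.filter (fun x => c x = a))
      (B.filter (fun x => c x = b)) := by
    intro a b hab
    rw [Finset.disjoint_left]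
    intro x hx hx'
    rw [Finset.mem_filter] at hx hx'
    exact hab (hx.2.symm.trans hx'.2)
  have d1 : Disjoint P1 N1 := dis _ _ (by norm_num)
  have d2 : Disjoint P2 N2 := dis _ _ (by norm_num)
  have dPP : Disjoint P2 P1 := dis _ _ (by norm_num)
  have dNN : Disjoint N2 N1 := dis _ _ (by norm_num)
  have dPN : Disjoint P2 N1 := dis _ _ (by norm_num)
  have dNP : Disjoint N2 P1 := dis _ _ (by norm_num)
  have h1 := hnn P1 sP1
  have h2 := hnn P2 sP2
  have h3 := hnn N1 sN1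
  have h4 := hnn N2 sN2
  -- not all are empty
  obtain ⟨x0, hx0, hcx0⟩ := hcon
  have hsome : P1.Nonempty ∨ P2.Nonempty ∨ N1.Nonempty ∨ N2.Nonempty := by
    have h5 := abs_le.mp (hc x0 hx0)
    have h6 : c x0 = -2 ∨ c x0 = -1 ∨ c x0 = 1 ∨ c x0 = 2 := by omega
    rcases h6 with h | h | h | h
    · exact Or.inr (Or.inr (Or.inr ⟨x0, Finset.mem_filter.mpr ⟨hx0, h⟩⟩))
    · exact Or.inr (Or.inr (Or.inl ⟨x0, Finset.mem_filter.mpr ⟨hx0, h⟩⟩))
    · exact Or.inl ⟨x0, Finset.mem_filter.mpr ⟨hx0, h⟩⟩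
    · exact Or.inr (Or.inl ⟨x0, Finset.mem_filter.mpr ⟨hx0, h⟩⟩)
  have e1 : P1.Nonempty ↔ 0 < ∑ x ∈ P1, (x : ℤ) := ⟨hposS P1 sP1, fun h => by
    by_contra hne
    rw [Finset.not_nonempty_iff_eq_empty] at hne
    rw [hne] at h
    simp at h⟩
  have e2 : P2.Nonempty ↔ 0 < ∑ x ∈ P2, (x : ℤ) := ⟨hposS P2 sP2, fun h => by
    by_contra hne
    rw [Finset.not_nonempty_iff_eq_empty] at hne
    rw [hne] at h
    simp at h⟩
  have e3 : N1.Nonempty ↔ 0 < ∑ x ∈ N1, (x : ℤ) := ⟨hposS N1 sN1, fun h => by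
    by_contra hne
    rw [Finset.not_nonempty_iff_eq_empty] at hne
    rw [hne] at h
    simp at h⟩
  have e4 : N2.Nonempty ↔ 0 < ∑ x ∈ N2, (x : ℤ) := ⟨hposS N2 sN2, fun h => by
    by_contra hne
    rw [Finset.not_nonempty_iff_eq_empty] at hne
    rw [hne] at h
    simp at h⟩
  rw [e1, e2, e3, e4] at hsome
  -- `X = P2 ∪ N1`, `Y = N2 ∪ N1`, `Z = P2 ∪ P1`
  have hX : ∑ x ∈ P2 ∪ N1, (x : ℤ) = ∑ x ∈ P2, (x : ℤ) + ∑ x ∈ N1, (x : ℤ) :=
    Finset.sum_union dPN
  have hY : ∑ x ∈ N2 ∪ N1, (x : ℤ) = ∑ x ∈ N2, (x : ℤ) + ∑ x ∈ N1, (x : ℤ) :=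
    Finset.sum_union dNN
  have hZ : ∑ x ∈ P2 ∪ P1, (x : ℤ) = ∑ x ∈ P2, (x : ℤ) + ∑ x ∈ P1, (x : ℤ) :=
    Finset.sum_union dPP
  have hYn : (N2 ∪ N1).Nonempty := by
    by_contra hne
    rw [Finset.not_nonempty_iff_eq_empty] at hne
    rw [hne, Finset.sum_empty] at hY
    omega
  have hZn : (P2 ∪ P1).Nonempty := by
    by_contra hne
    rw [Finset.not_nonempty_iff_eq_empty] at hne
    rw [hne, Finset.sum_empty] at hZ
    omega
  by_cases hXn : (P2 ∪ N1).Nonempty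
  · by_cases hne : ∑ x ∈ P2, (x : ℤ) = ∑ x ∈ N2, (x : ℤ)
    · -- equal sums
      have hne' : ∑ x ∈ P1, (x : ℤ) = ∑ x ∈ N1, (x : ℤ) := by linarith
      by_cases h5 : P2.Nonempty
      · have h6 : N2.Nonempty := by rw [e4]; rw [e2] at h5; linarith
        exact hasAP_of_eq B P2 N2 hpos sP2 sN2 h5 h6 d2 hne
      · have h5' : ¬ (0 < ∑ x ∈ P2, (x : ℤ)) := by rwa [← e2]
        have h6 : P1.Nonempty := by rw [e1]; omega
        have h7 : N1.Nonempty := by rw [e3]; rw [e1] at h6; linarith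
        exact hasAP_of_eq B P1 N1 hpos sP1 sN1 h6 h7 d1 hne'
    · refine hasAP_of _ _ _ _ ⟨P2 ∪ N1, Finset.union_subset sP2 sN1, hXn, rfl⟩
        ⟨N2 ∪ N1, Finset.union_subset sN2 sN1, hYn, rfl⟩
        ⟨P2 ∪ P1, Finset.union_subset sP2 sP1, hZn, rfl⟩ ?_ ?_
      · rw [hX, hY]
        intro h
        exact hne (by linarith)
      · rw [hX, hY, hZ]
        linarith
  · -- `X` empty: coefficients `0, 1, -2` only
    rw [Finset.not_nonempty_iff_eq_empty] at hXn
    rw [hXn, Finset.sum_empty] at hX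
    have h5 : ∑ x ∈ P2, (x : ℤ) = 0 := by omega
    have h6 : ∑ x ∈ N1, (x : ℤ) = 0 := by omega
    have h7 : N2.Nonempty := by rw [e4]; omega
    have h8 : P1.Nonempty := by rw [e1]; omega
    have h9 : 0 < ∑ x ∈ N2, (x : ℤ) := e4.mp h7
    refine hasAP_of _ (∑ x ∈ N2, (x : ℤ)) (∑ x ∈ P1, (x : ℤ)) (∑ x ∈ N2 ∪ P1, (x : ℤ))
      ⟨N2, sN2, h7, rfl⟩ ⟨P1, sP1, h8, rfl⟩
      ⟨N2 ∪ P1, Finset.union_subset sN2 sP1, h7.mono Finset.subset_union_left, rfl⟩ ?_ ?_
    · intro h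
      omega
    · rw [Finset.sum_union dNP]
      omega

/-- Upper bounds for `g` from relation-free sets. -/
lemma g_le {k : ℕ} (hk : 1 ≤ k) (B : Finset ℕ) (hcard : B.card = k) (hpos : ∀ b ∈ B, 0 < b)
    (hB : NoRel B) : ∃ m ∈ B, g 3 k ≤ m := by
  have hne : B.Nonempty := by rw [← Finset.card_pos]; omega
  refine ⟨B.max' hne, B.max'_mem hne, ?_⟩
  apply Nat.sInf_le
  exact ⟨B, hcard, hpos, ⟨B.max'_mem hne, fun x hx => B.le_max' x hx⟩, not_hasAP_of_noRel hB⟩

/-- `g` is attained. -/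
lemma g_mem {k : ℕ} (hk : 1 ≤ k) : ∃ B : Finset ℕ, B.card = k ∧ (∀ b ∈ B, 0 < b) ∧
    (∀ b ∈ B, b ≤ g 3 k) ∧ NoRel B := by
  have hne : {m : ℕ | ∃ B : Finset ℕ, B.card = k ∧ (∀ b ∈ B, 0 < b) ∧
      IsGreatest (B : Set ℕ) m ∧ ¬ HasAP 3 (subsetSums B)}.Nonempty := by
    obtain ⟨A, h1, h2, h3⟩ := exists_trivial k hk
    have hAn : A.Nonempty := by rw [← Finset.card_pos]; omega
    exact ⟨A.max' hAn, A, h1, fun b hb => (h2 b hb).1,
      ⟨A.max'_mem hAn, fun x hx => A.le_max' x hx⟩, not_hasAP_of_noRel h3⟩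
  obtain ⟨B, h1, h2, h3, h4⟩ := Nat.sInf_mem hne
  exact ⟨B, h1, h2, fun b hb => h3.2 hb, noRel_of_not_hasAP h2 h4⟩

/-- Integer form of the upper bound. -/
lemma g_mul_le (p : ℕ) (hp : 1 ≤ p) (k : ℕ) (hk : 184 * p ^ 3 ≤ k) : p * g 3 k ≤ 3 ^ k := by
  have hk1 : 1 ≤ k := by
    have : 1 ≤ p ^ 3 := Nat.one_le_pow _ _ hp
    omega
  obtain ⟨A, h1, h2, h3⟩ := exists_set p hp k hk
  obtain ⟨m, hm, hle⟩ := g_le hk1 A h1 (fun b hb => (h2 b hb).1) h3
  exact (Nat.mul_le_mul_left _ hle).trans (h2 m hm).2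

lemma g_three_mul_le (k : ℕ) (hk : 1 ≤ k) : 3 * g 3 k ≤ 3 ^ k := by
  obtain ⟨A, h1, h2, h3⟩ := exists_trivial k hk
  obtain ⟨m, hm, hle⟩ := g_le hk A h1 (fun b hb => (h2 b hb).1) h3
  exact (Nat.mul_le_mul_left _ hle).trans (h2 m hm).2

/-- The lower bound. -/
lemma lower (k : ℕ) (hk : 1 ≤ k) : (3 : ℝ) ^ k / (4 * √(k : ℝ)) ≤ g 3 k := by
  obtain ⟨B, h1, h2, h3, h4⟩ := g_mem hk
  have h5 := lower_bound B h4 (by omega) (g 3 k) h3
  rw [h1] at h5
  have hk' : (0 : ℝ) < k := by exact_mod_cast hk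
  have hs : 0 < √(k : ℝ) := Real.sqrt_pos.mpr hk'
  rw [div_le_iff₀ (by positivity)]
  have h6 : ((3 : ℝ) ^ k) ^ 2 ≤ ((g 3 k : ℝ) * (4 * √(k : ℝ))) ^ 2 := by
    have h7 : (9 : ℝ) ^ k ≤ 16 * k * (g 3 k : ℝ) ^ 2 := by exact_mod_cast h5
    have h8 : ((3 : ℝ) ^ k) ^ 2 = 9 ^ k := by rw [← pow_mul, mul_comm, pow_mul]; norm_num
    have h9 : ((g 3 k : ℝ) * (4 * √(k : ℝ))) ^ 2 = 16 * k * (g 3 k : ℝ) ^ 2 := by
      rw [mul_pow, mul_pow, Real.sq_sqrt hk'.le]; ring
    rw [h8, h9]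
    exact h7
  exact (abs_le_of_sq_le_sq' h6 (by positivity)).2

/-- The upper bound. -/
lemma upper (k : ℕ) (hk : 1 ≤ k) : (g 3 k : ℝ) ≤ 12 * 3 ^ k / (k : ℝ) ^ (1 / 3 : ℝ) := by
  have hk' : (0 : ℝ) < k := by exact_mod_cast hk
  have hr : 0 < (k : ℝ) ^ (1 / 3 : ℝ) := Real.rpow_pos_of_pos hk' _
  have hcube : ((k : ℝ) ^ (1 / 3 : ℝ)) ^ 3 = k := by
    rw [← Real.rpow_natCast, ← Real.rpow_mul hk'.le]
    norm_num
  rw [le_div_iff₀ hr]
  rcases Nat.lt_or_ge k 184 with h | h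
  · have h1 : (k : ℝ) ^ (1 / 3 : ℝ) ≤ 6 := by
      have h2 : ((k : ℝ) ^ (1 / 3 : ℝ)) ^ 3 ≤ 6 ^ 3 := by
        rw [hcube]
        have : (k : ℝ) ≤ 184 := by exact_mod_cast h.le
        linarith
      exact le_of_pow_le_pow_left₀ (by norm_num) (by norm_num) h2
    have h2 : (3 : ℝ) * g 3 k ≤ 3 ^ k := by exact_mod_cast g_three_mul_le k hk
    have h3 : (0 : ℝ) ≤ g 3 k := by positivity
    nlinarith
  · -- the largest `p` with `184 p ^ 3 ≤ k`
    have hex : ∃ p : ℕ, 1 ≤ p ∧ 184 * p ^ 3 ≤ k ∧ k < 184 * (p + 1) ^ 3 := by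
      have hP : ∃ n : ℕ, k < 184 * (n + 1) ^ 3 := by
        refine ⟨k, ?_⟩
        have : k + 1 ≤ (k + 1) ^ 3 := by
          calc k + 1 = (k + 1) ^ 1 := (pow_one _).symm
            _ ≤ (k + 1) ^ 3 := Nat.pow_le_pow_right (by omega) (by norm_num)
        omega
      classical
      refine ⟨Nat.find hP, ?_, ?_, Nat.find_spec hP⟩
      · by_contra hlt
        have h0 : Nat.find hP = 0 := by omega
        have := Nat.find_spec hP
        rw [h0] at this
        omega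
      · by_contra hlt
        push Not at hlt
        have hpos : 1 ≤ Nat.find hP := by
          by_contra h0
          have h0' : Nat.find hP = 0 := by omega
          have := Nat.find_spec hP
          rw [h0'] at this
          omega
        have := Nat.find_min hP (m := Nat.find hP - 1) (by omega)
        apply this
        have e : Nat.find hP - 1 + 1 = Nat.find hP := by omega
        rw [e]
        exact hlt
    obtain ⟨p, hp, h1, h2⟩ := hex
    have h3 := g_mul_le p hp k h1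
    have h3' : (p : ℝ) * g 3 k ≤ 3 ^ k := by exact_mod_cast h3
    have hp' : (1 : ℝ) ≤ p := by exact_mod_cast hp
    have h4 : (k : ℝ) ^ (1 / 3 : ℝ) ≤ 12 * p := by
      have h5 : ((k : ℝ) ^ (1 / 3 : ℝ)) ^ 3 ≤ (12 * p) ^ 3 := by
        rw [hcube]
        have h6 : (k : ℝ) ≤ 184 * ((p : ℝ) + 1) ^ 3 := by exact_mod_cast h2.le
        have h7 : ((p : ℝ) + 1) ^ 3 ≤ (2 * p) ^ 3 := pow_le_pow_left₀ (by positivity) (by linarith) 3
        have h8 : (0 : ℝ) ≤ (p : ℝ) ^ 3 := by positivity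
        nlinarith
      exact le_of_pow_le_pow_left₀ (by norm_num) (by positivity) h5
    have h5 : (0 : ℝ) ≤ g 3 k := by positivity
    calc (g 3 k : ℝ) * (k : ℝ) ^ (1 / 3 : ℝ) ≤ g 3 k * (12 * p) :=
          mul_le_mul_of_nonneg_left h4 h5
      _ = 12 * (p * g 3 k) := by ring
      _ ≤ 12 * 3 ^ k := by linarith

lemma log_three_lt : Real.log 3 < 1.11 := by
  have h1 : Real.log ((3 : ℝ) ^ 5) < Real.log ((2 : ℝ) ^ 8) :=
    Real.log_lt_log (by norm_num) (by norm_num)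
  rw [Real.log_pow, Real.log_pow] at h1
  have h2 := Real.log_two_lt_d9
  push_cast at h1
  linarith

lemma log_three_gt : 1.09 < Real.log 3 := by
  have h1 : Real.log ((2 : ℝ) ^ 19) < Real.log ((3 : ℝ) ^ 12) :=
    Real.log_lt_log (by norm_num) (by norm_num)
  rw [Real.log_pow, Real.log_pow] at h1
  have h2 := Real.log_two_gt_d9
  push_cast at h1
  linarith

/-- **Main result.** `3 ^ k / (4 √k) ≤ g_3(k) ≤ 12 * 3 ^ k / k ^ (1/3)` for all `k ≥ 1`; hence
`g_3(k) = 3 ^ (k - Θ(log k))`, and for every `c` one has `g_3(k) < 3 ^ (k - c)` for all large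
`k`. -/
theorem result :
    (∀ k : ℕ, 1 ≤ k → (3 : ℝ) ^ k / (4 * √(k : ℝ)) ≤ g 3 k ∧
      (g 3 k : ℝ) ≤ 12 * 3 ^ k / (k : ℝ) ^ (1 / 3 : ℝ)) ∧
    (∃ c₁ c₂ : ℝ, 0 < c₁ ∧ c₁ < c₂ ∧ ∃ k₀ : ℕ, ∀ k : ℕ, k₀ ≤ k →
      (3 : ℝ) ^ ((k : ℝ) - c₂ * Real.log k) < g 3 k ∧
      (g 3 k : ℝ) < (3 : ℝ) ^ ((k : ℝ) - c₁ * Real.log k)) ∧
    (∀ c : ℝ, ∃ k₀ : ℕ, ∀ k : ℕ, k₀ ≤ k → (g 3 k : ℝ) < (3 : ℝ) ^ ((k : ℝ) - c)) := by
  have l3a := log_three_lt
  have l3b := log_three_gt
  have hpart2 : ∀ k : ℕ, 3 ^ 12 ≤ k →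
      (3 : ℝ) ^ ((k : ℝ) - 1 * Real.log k) < g 3 k ∧
      (g 3 k : ℝ) < (3 : ℝ) ^ ((k : ℝ) - 1 / 10 * Real.log k) := by
    intro k hk
    have hk1 : 1 ≤ k := by omega
    have hk' : (0 : ℝ) < k := by exact_mod_cast hk1
    have hlogk : 13 ≤ Real.log k := by
      have h1 : Real.log ((3 : ℝ) ^ 12) ≤ Real.log k :=
        Real.log_le_log (by norm_num) (by exact_mod_cast hk)
      rw [Real.log_pow] at h1
      push_cast at h1
      linarith
    have e3 : ∀ y : ℝ, (3 : ℝ) ^ y = Real.exp (Real.log 3 * y) := fun y =>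
      Real.rpow_def_of_pos (by norm_num) y
    have e3k : (3 : ℝ) ^ k = Real.exp (Real.log 3 * k) := by
      rw [← e3, Real.rpow_natCast]
    have ek : ∀ y : ℝ, (k : ℝ) ^ y = Real.exp (Real.log k * y) := fun y =>
      Real.rpow_def_of_pos hk' y
    constructor
    · refine lt_of_lt_of_le ?_ (lower k hk1)
      have hs : √(k : ℝ) = Real.exp (Real.log k * (1 / 2)) := by
        rw [Real.sqrt_eq_rpow, ek]
      have h4 : (4 : ℝ) < Real.exp (Real.log k * (1 / 2)) := by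
        have h5 : (4 : ℝ) = Real.exp (Real.log 4) := (Real.exp_log (by norm_num)).symm
        rw [h5]
        apply Real.exp_lt_exp.mpr
        have h6 : Real.log 4 = 2 * Real.log 2 := by
          have : (4 : ℝ) = 2 ^ 2 := by norm_num
          rw [this, Real.log_pow]
          push_cast
          ring
        have h7 := Real.log_two_lt_d9
        rw [h6]
        linarith
      rw [hs, e3, e3k, lt_div_iff₀ (by positivity)]
      calc Real.exp (Real.log 3 * ((k : ℝ) - 1 * Real.log k)) *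
            (4 * Real.exp (Real.log k * (1 / 2)))
          < Real.exp (Real.log 3 * ((k : ℝ) - 1 * Real.log k)) *
            (Real.exp (Real.log k * (1 / 2)) * Real.exp (Real.log k * (1 / 2))) := by
              apply mul_lt_mul_of_pos_left _ (Real.exp_pos _)
              apply mul_lt_mul_of_pos_right h4 (Real.exp_pos _)
        _ = Real.exp (Real.log 3 * ((k : ℝ) - 1 * Real.log k) + Real.log k) := by
              rw [← Real.exp_add, ← Real.exp_add]
              congr 1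
              ring
        _ ≤ Real.exp (Real.log 3 * k) := by
              apply Real.exp_le_exp.mpr
              nlinarith
    · refine lt_of_le_of_lt (upper k hk1) ?_
      have h12 : (12 : ℝ) < Real.exp 2.5 := by
        have h5 : (12 : ℝ) = Real.exp (Real.log 12) := (Real.exp_log (by norm_num)).symm
        rw [h5]
        apply Real.exp_lt_exp.mpr
        have h6 : Real.log 12 = 2 * Real.log 2 + Real.log 3 := by
          have : (12 : ℝ) = 2 ^ 2 * 3 := by norm_num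
          rw [this, Real.log_mul (by norm_num) (by norm_num), Real.log_pow]
          push_cast
          ring
        have h7 := Real.log_two_lt_d9
        rw [h6]
        linarith
      rw [ek, e3, e3k, div_lt_iff₀ (Real.exp_pos _)]
      calc 12 * Real.exp (Real.log 3 * k) < Real.exp 2.5 * Real.exp (Real.log 3 * k) :=
            mul_lt_mul_of_pos_right h12 (Real.exp_pos _)
        _ = Real.exp (2.5 + Real.log 3 * k) := by rw [← Real.exp_add]
        _ ≤ Real.exp (Real.log 3 * ((k : ℝ) - 1 / 10 * Real.log k) + Real.log k * (1 / 3)) := by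
              apply Real.exp_le_exp.mpr
              nlinarith
        _ = Real.exp (Real.log 3 * ((k : ℝ) - 1 / 10 * Real.log k)) *
            Real.exp (Real.log k * (1 / 3)) := by rw [← Real.exp_add]
  refine ⟨fun k hk => ⟨lower k hk, upper k hk⟩,
    ⟨1 / 10, 1, by norm_num, by norm_num, 3 ^ 12, hpart2⟩, ?_⟩
  intro c
  obtain ⟨p, hp⟩ := exists_nat_gt ((3 : ℝ) ^ c)
  have hc0 : (0 : ℝ) < 3 ^ c := Real.rpow_pos_of_pos (by norm_num) _
  have hp1 : 1 ≤ p := by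
    have : (0 : ℝ) < p := hc0.trans hp
    exact_mod_cast this
  refine ⟨184 * p ^ 3, fun k hk => ?_⟩
  have h1 : (p : ℝ) * g 3 k ≤ 3 ^ k := by exact_mod_cast g_mul_le p hp1 k hk
  have hk1 : 1 ≤ k := by
    have : 1 ≤ p ^ 3 := Nat.one_le_pow _ _ hp1
    omega
  have h2 : (0 : ℝ) < g 3 k := by
    have h3 := lower k hk1
    have hk' : (0 : ℝ) < k := by exact_mod_cast hk1
    have hs : 0 < √(k : ℝ) := Real.sqrt_pos.mpr hk'
    have : (0 : ℝ) < (3 : ℝ) ^ k / (4 * √(k : ℝ)) := by positivity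
    linarith
  rw [Real.rpow_sub (by norm_num), Real.rpow_natCast, lt_div_iff₀ hc0]
  calc (g 3 k : ℝ) * 3 ^ c < g 3 k * p := mul_lt_mul_of_pos_left hp h2
    _ = p * g 3 k := by ring
    _ ≤ 3 ^ k := h1

end Pool.Agent.Results.MP_727445_co.ZigzagTernary
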